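import Mathlib
import Pool.Agent.H752R3.Recursion

/-!
Under CH there is a Luzin set `X` of reals such that `[0, 1] ⊆ X + X` and such that `X` satisfies
the Scheepers property `U_fin(O, Ω)` (in a functional form).
-/

set_option autoImplicit false

namespace Pool.Agent.R824.Sums

open Set Filter Topology Cardinal TopologicalSpace

/-- General transfinite recursion producing a family with prescribed relations to its past. -/
theorem exists_transfinite {ι : Type*} [LinearOrder ι] [WellFoundedLT ι] {E : Type*} [Nonempty E]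
    (P : ι → (ι → E) → E → Prop) (hex : ∀ β prev, ∃ y, P β prev y)
    (hcongr : ∀ β prev prev' y, (∀ b < β, prev b = prev' b) → P β prev y → P β prev' y) :
    ∃ Y : ι → E, ∀ β, P β Y (Y β) := by
  classical
  let step : ∀ a : ι, (∀ b : ι, b < a → E) → E := fun a f =>
    (hex a (fun b => if h : b < a then f b h else Classical.arbitrary E)).choose
  let Y : ι → E := (wellFounded_lt (α := ι)).fix step
  have hY : ∀ a, Y a = step a (fun b _ => Y b) := fun a =>
    (wellFounded_lt (α := ι)).fix_eq step a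
  refine ⟨Y, fun β => ?_⟩
  have h1 := (hex β (fun b => if h : b < β then Y b else Classical.arbitrary E)).choose_spec
  rw [hY β]
  refine hcongr β _ _ _ ?_ h1
  intro b hb
  simp [hb]

section codes

variable {B : ℕ → Set ℝ}

/-- the union of the basic sets with index in `s` and at most `m` -/
def U (B : ℕ → Set ℝ) (s : Set ℕ) (m : ℕ) : Set ℝ := ⋃ i ∈ {i | i ∈ s ∧ i ≤ m}, B i

theorem mem_U {s : Set ℕ} {m : ℕ} {x : ℝ} : x ∈ U B s m ↔ ∃ i, i ∈ s ∧ i ≤ m ∧ x ∈ B i := by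
  simp [U, and_assoc]

theorem isOpen_U (hB : ∀ i, IsOpen (B i)) (s : Set ℕ) (m : ℕ) : IsOpen (U B s m) :=
  isOpen_biUnion fun i _ => hB i

theorem U_mono (s : Set ℕ) : Monotone (U B s) := by
  intro m m' h x hx
  obtain ⟨i, h1, h2, h3⟩ := mem_U.1 hx
  exact mem_U.2 ⟨i, h1, h2.trans h, h3⟩

/-- the code describes a sequence of dense open sets -/
def DenseCode (B : ℕ → Set ℝ) (I : ℕ → Set ℕ) : Prop := ∀ n, Dense (⋃ m, U B (I n) m)

theorem exists_m (hB : ∀ i, IsOpen (B i)) {s : Set ℕ} (hs : Dense (⋃ m, U B s m)) (j : ℕ)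
    (hj : (B j).Nonempty) : ∃ m, ∀ z ∈ Icc (0 : ℝ) 1, ∃ x ∈ B j, x ∈ U B s m ∧ z - x ∈ U B s m := by
  have hDo : IsOpen (⋃ m, U B s m) := isOpen_iUnion fun m => isOpen_U hB s m
  let O : ℕ → Set ℝ := fun m => {z | ∃ x ∈ B j, x ∈ U B s m ∧ z - x ∈ U B s m}
  have hO : ∀ m, IsOpen (O m) := by
    intro m
    have : O m = ⋃ x ∈ B j ∩ U B s m, (fun z => z - x) ⁻¹' U B s m := by
      ext z
      simp only [O, mem_ofPred_eq, mem_iUnion, mem_inter_iff, mem_preimage, exists_prop]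
      constructor
      · rintro ⟨x, h1, h2, h3⟩
        exact ⟨x, ⟨h1, h2⟩, h3⟩
      · rintro ⟨x, ⟨h1, h2⟩, h3⟩
        exact ⟨x, h1, h2, h3⟩
    rw [this]
    exact isOpen_biUnion fun x _ => (isOpen_U hB s m).preimage (by fun_prop)
  have hmono : Monotone O := by
    rintro m m' h z ⟨x, h1, h2, h3⟩
    exact ⟨x, h1, U_mono s h h2, U_mono s h h3⟩
  have hcov : Icc (0 : ℝ) 1 ⊆ ⋃ m, O m := by
    intro z _
    have h1 : Dense ((fun x => z - x) ⁻¹' (⋃ m, U B s m)) :=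
      hs.preimage (Homeomorph.subLeft z).isOpenMap
    have h2 : Dense ((⋃ m, U B s m) ∩ (fun x => z - x) ⁻¹' (⋃ m, U B s m)) :=
      hs.inter_of_isOpen_left h1 hDo
    obtain ⟨x, hxB, hx1, hx2⟩ := h2.inter_open_nonempty _ (hB j) hj
    obtain ⟨m1, hm1⟩ := mem_iUnion.1 hx1
    obtain ⟨m2, hm2⟩ := mem_iUnion.1 hx2
    exact mem_iUnion.2 ⟨max m1 m2, x, hxB, U_mono s (le_max_left _ _) hm1,
      U_mono s (le_max_right _ _) hm2⟩
  obtain ⟨m, hm⟩ := isCompact_Icc.elim_directed_cover O hO hcov hmono.directed_le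
  exact ⟨m, fun z hz => hm hz⟩

theorem exists_h (hB : ∀ i, IsOpen (B i)) {I : ℕ → Set ℕ} (hI : DenseCode B I) :
    ∃ h : ℕ → ℕ, ∀ n, ∀ z ∈ Icc (0 : ℝ) 1, ∀ j ≤ n, (B j).Nonempty →
      ∃ x ∈ B j, x ∈ U B (I n) (h n) ∧ z - x ∈ U B (I n) (h n) := by
  classical
  have h1 : ∀ n j, ∃ m, (B j).Nonempty → ∀ z ∈ Icc (0 : ℝ) 1,
      ∃ x ∈ B j, x ∈ U B (I n) m ∧ z - x ∈ U B (I n) m := by
    intro n j
    by_cases hj : (B j).Nonempty
    · obtain ⟨m, hm⟩ := exists_m hB (hI n) j hj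
      exact ⟨m, fun _ => hm⟩
    · exact ⟨0, fun h => absurd h hj⟩
  choose m hm using h1
  refine ⟨fun n => (Finset.range (n + 1)).sup (m n), fun n z hz j hj hne => ?_⟩
  obtain ⟨x, hx1, hx2, hx3⟩ := hm n j hne z hz
  have hle : m n j ≤ (Finset.range (n + 1)).sup (m n) :=
    Finset.le_sup (f := m n) (Finset.mem_range.2 (Nat.lt_succ_of_le hj))
  exact ⟨x, hx1, U_mono _ hle hx2, U_mono _ hle hx3⟩

theorem residual_inf (hB : ∀ i, IsOpen (B i)) (hb : IsTopologicalBasis (range B))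
    {I : ℕ → Set ℕ} {h : ℕ → ℕ} {z : ℝ} (hz : z ∈ Icc (0 : ℝ) 1)
    (hh : ∀ n, ∀ z ∈ Icc (0 : ℝ) 1, ∀ j ≤ n, (B j).Nonempty →
      ∃ x ∈ B j, x ∈ U B (I n) (h n) ∧ z - x ∈ U B (I n) (h n))
    {A : Set ℕ} (hA : A.Infinite) :
    ∀ᶠ x in residual ℝ, {n | n ∈ A ∧ x ∈ U B (I n) (h n) ∧ z - x ∈ U B (I n) (h n)}.Infinite := by
  let W : ℕ → Set ℝ := fun n => {x | x ∈ U B (I n) (h n) ∧ z - x ∈ U B (I n) (h n)}
  have hW : ∀ n, IsOpen (W n) := fun n =>
    (isOpen_U hB _ _).inter ((isOpen_U hB _ _).preimage (by fun_prop))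
  have h1 : ∀ k, ∀ᶠ x in residual ℝ, ∃ n ∈ A, k ≤ n ∧ x ∈ W n := by
    intro k
    have ho : IsOpen (⋃ n ∈ {n | n ∈ A ∧ k ≤ n}, W n) := isOpen_biUnion fun n _ => hW n
    have hd : Dense (⋃ n ∈ {n | n ∈ A ∧ k ≤ n}, W n) := by
      rw [hb.dense_iff]
      rintro _ ⟨j, rfl⟩ hj
      obtain ⟨n, hnA, hn⟩ := hA.exists_gt (max j k)
      obtain ⟨x, hx1, hx2⟩ := hh n z hz j ((le_max_left _ _).trans hn.le) hj
      exact ⟨x, hx1, mem_biUnion (show n ∈ {n | n ∈ A ∧ k ≤ n} from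
        ⟨hnA, (le_max_right _ _).trans hn.le⟩) hx2⟩
    filter_upwards [residual_of_dense_open ho hd] with x hx
    obtain ⟨n, ⟨h2, h3⟩, h4⟩ := mem_iUnion₂.1 hx
    exact ⟨n, h2, h3, h4⟩
  filter_upwards [eventually_countable_forall.2 h1] with x hx
  rw [infinite_iff_exists_gt]
  intro k
  obtain ⟨n, h2, h3, h4⟩ := hx (k + 1)
  exact ⟨n, ⟨h2, h4⟩, h3⟩

end codes

/-- the index set: a well-order of type `ω₁` -/
abbrev Om : Type := (ℵ₁ : Cardinal.{0}).ord.ToType

section recursion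

variable (B : ℕ → Set ℝ) (H : (ℕ → Set ℕ) → ℕ → ℕ) (zz : Om → ℝ)

/-- both members of the pair with index `b` are in the `n`-th bounded open set of the code `I` -/
def Hit (x : Om → ℝ) (I : ℕ → Set ℕ) (b : Om) (n : ℕ) : Prop :=
  x b ∈ U B (I n) (H I n) ∧ zz b - x b ∈ U B (I n) (H I n)

/-- the indices good for all pairs with index in `F` -/
def ASet (x : Om → ℝ) (I : ℕ → Set ℕ) (F : Finset Om) : Set ℕ := {n | ∀ b ∈ F, Hit B H zz x I b n}

/-- the requirements on the point with index `a` -/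
def Req (e : Om → ℕ → Set ℕ) (a : Om) (x : Om → ℝ) (y : ℝ) : Prop :=
  (∀ c ≤ a, DenseCode B (e c) →
    ∀ n, (y ∈ ⋃ m, U B (e c n) m) ∧ (zz a - y ∈ ⋃ m, U B (e c n) m)) ∧
  ∀ c ≤ a, DenseCode B (e c) → ∀ F ∈ {F : Finset Om | (F : Set Om) ⊆ Iio a},
    (ASet B H zz x (e c) F).Infinite →
    {n | n ∈ ASet B H zz x (e c) F ∧ y ∈ U B (e c n) (H (e c) n) ∧
      zz a - y ∈ U B (e c n) (H (e c) n)}.Infinite

variable {B H zz}

theorem exists_family (hB : ∀ i, IsOpen (B i)) (hb : IsTopologicalBasis (range B))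
    (hH : ∀ I, DenseCode B I → ∀ n, ∀ z ∈ Icc (0 : ℝ) 1, ∀ j ≤ n, (B j).Nonempty →
      ∃ x ∈ B j, x ∈ U B (I n) (H I n) ∧ z - x ∈ U B (I n) (H I n))
    (hz : ∀ a, zz a ∈ Icc (0 : ℝ) 1) (e : Om → ℕ → Set ℕ) :
    ∃ x : Om → ℝ, ∀ a, Req B H zz e a x (x a) := by
  refine exists_transfinite (fun a x y => Req B H zz e a x y) (fun a x => ?_) ?_
  · have hIic : (Iic a).Countable := by
      rw [← Set.Iio_insert]
      exact (Pool.Agent.H752R3.countable_Iio_omega1 a).insert a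
    have hFin : {F : Finset Om | (F : Set Om) ⊆ Iio a}.Countable := by
      have h1 := Set.countable_ofPred_finite_subset (Pool.Agent.H752R3.countable_Iio_omega1 a)
      refine (h1.preimage_of_injOn (f := fun F : Finset Om => (F : Set Om))
        Finset.coe_injective.injOn).mono ?_
      intro F hF
      exact ⟨F.finite_toSet, hF⟩
    have h1 : ∀ᶠ y in residual ℝ, ∀ c (_ : c ∈ Iic a), DenseCode B (e c) →
        ∀ n, (y ∈ ⋃ m, U B (e c n) m) ∧ (zz a - y ∈ ⋃ m, U B (e c n) m) := by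
      rw [eventually_countable_ball hIic]
      intro c _
      by_cases hc : DenseCode B (e c)
      · have h2 : ∀ᶠ y in residual ℝ,
            ∀ n, (y ∈ ⋃ m, U B (e c n) m) ∧ (zz a - y ∈ ⋃ m, U B (e c n) m) := by
          rw [eventually_countable_forall]
          intro n
          have ho : IsOpen (⋃ m, U B (e c n) m) := isOpen_iUnion fun m => isOpen_U hB _ m
          have h3 : (⋃ m, U B (e c n) m) ∈ residual ℝ := residual_of_dense_open ho (hc n)
          have h4 : (fun y => zz a - y) ⁻¹' (⋃ m, U B (e c n) m) ∈ residual ℝ :=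
            residual_of_dense_open (ho.preimage (by fun_prop))
              ((hc n).preimage (Homeomorph.subLeft (zz a)).isOpenMap)
          filter_upwards [h3, h4] with y h5 h6 using ⟨h5, h6⟩
        filter_upwards [h2] with y hy _ using hy
      · exact Eventually.of_forall fun y h => absurd h hc
    have h5 : ∀ᶠ y in residual ℝ, ∀ c (_ : c ∈ Iic a), DenseCode B (e c) →
        ∀ F (_ : F ∈ {F : Finset Om | (F : Set Om) ⊆ Iio a}),
        (ASet B H zz x (e c) F).Infinite →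
        {n | n ∈ ASet B H zz x (e c) F ∧ y ∈ U B (e c n) (H (e c) n) ∧
          zz a - y ∈ U B (e c n) (H (e c) n)}.Infinite := by
      rw [eventually_countable_ball hIic]
      intro c _
      by_cases hc : DenseCode B (e c)
      · have h2 : ∀ᶠ y in residual ℝ, ∀ F (_ : F ∈ {F : Finset Om | (F : Set Om) ⊆ Iio a}),
            (ASet B H zz x (e c) F).Infinite →
            {n | n ∈ ASet B H zz x (e c) F ∧ y ∈ U B (e c n) (H (e c) n) ∧
              zz a - y ∈ U B (e c n) (H (e c) n)}.Infinite := by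
          rw [eventually_countable_ball hFin]
          intro F _
          by_cases hA : (ASet B H zz x (e c) F).Infinite
          · filter_upwards [residual_inf hB hb (hz a) (hH (e c) hc) hA] with y hy _ using hy
          · exact Eventually.of_forall fun y h => absurd h hA
        filter_upwards [h2] with y hy _ using hy
      · exact Eventually.of_forall fun y h => absurd h hc
    have hne : {y | Req B H zz e a x y} ∈ residual ℝ := by
      filter_upwards [h1, h5] with y hy1 hy2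
      exact ⟨fun c hc => hy1 c hc, fun c hc => hy2 c hc⟩
    exact (dense_of_mem_residual hne).nonempty
  · intro a x x' y hx hy
    refine ⟨hy.1, fun c hc hcd F hF hA => ?_⟩
    have hEq : ASet B H zz x (e c) F = ASet B H zz x' (e c) F := by
      ext n
      simp only [ASet, Hit, mem_ofPred_eq]
      refine forall₂_congr fun b hb => ?_
      rw [hx b (hF hb)]
    rw [← hEq] at hA ⊢
    exact hy.2 c hc hcd F hF hA

/-- the set built from the family -/
def XS (zz x : Om → ℝ) : Set ℝ := range ((↑) : ℚ → ℝ) ∪ (range x ∪ range fun a => zz a - x a)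

theorem aset_infinite {e : Om → ℕ → Set ℕ} {x : Om → ℝ} (hx : ∀ a, Req B H zz e a x (x a))
    {c : Om} (hc : DenseCode B (e c)) (F : Finset Om) (hF : ∀ b ∈ F, c ≤ b) :
    (ASet B H zz x (e c) F).Infinite := by
  classical
  induction F using Finset.induction_on_max with
  | empty =>
    have : ASet B H zz x (e c) ∅ = Set.univ := by
      ext n
      simp [ASet]
    rw [this]
    exact infinite_univ
  | insert a s hmax ih =>
    have h1 := ih (fun b hb => hF b (Finset.mem_insert_of_mem hb))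
    have h2 := (hx a).2 c (hF a (Finset.mem_insert_self a s)) hc s (fun b hb => hmax b hb) h1
    refine h2.mono ?_
    rintro n ⟨h3, h4⟩ b hb
    rcases Finset.mem_insert.1 hb with rfl | hb
    · exact h4
    · exact h3 b hb

/-- For the code `I` of a sequence of open sets containing `X` the increasing pieces can be bounded
so that every finite subset of `X` is in infinitely many of the bounded pieces. -/
theorem scheepers_code {e : Om → ℕ → Set ℕ} (he : Function.Surjective e) {x : Om → ℝ}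
    (hx : ∀ a, Req B H zz e a x (x a)) {I : ℕ → Set ℕ}
    (hI : ∀ n, XS zz x ⊆ ⋃ m, U B (I n) m) :
    ∃ h : ℕ → ℕ, ∀ F : Finset ℝ, (F : Set ℝ) ⊆ XS zz x →
      {n | (F : Set ℝ) ⊆ U B (I n) (h n)}.Infinite := by
  classical
  obtain ⟨c, hc⟩ := he I
  have hdense : DenseCode B (e c) := by
    intro n
    rw [hc]
    exact Rat.denseRange_cast.mono (subset_union_left.trans (hI n))
  -- the countable part
  let C : Set ℝ := range ((↑) : ℚ → ℝ) ∪ (x '' Iio c ∪ (fun a => zz a - x a) '' Iio c)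
  have hCc : C.Countable := (countable_range _).union
    (((Pool.Agent.H752R3.countable_Iio_omega1 c).image _).union
      ((Pool.Agent.H752R3.countable_Iio_omega1 c).image _))
  have hCX : C ⊆ XS zz x := by
    refine union_subset_union_right _ (union_subset_union ?_ ?_)
    · exact image_subset_range _ _
    · exact image_subset_range _ _
  have hCne : C.Nonempty := ⟨((0 : ℚ) : ℝ), Or.inl ⟨0, rfl⟩⟩
  obtain ⟨q, hq⟩ := hCc.exists_eq_range hCne
  have hqm : ∀ i n, ∃ m, q i ∈ U B (I n) m := by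
    intro i n
    have h1 : q i ∈ C := by
      rw [hq]
      exact mem_range_self i
    exact mem_iUnion.1 (hI n (hCX h1))
  choose ψ hψ using hqm
  refine ⟨fun n => max (H I n) ((Finset.range (n + 1)).sup (fun i => ψ i n)), fun F hF => ?_⟩
  have hqn : ∀ y ∈ C, ∀ᶠ n in atTop, y ∈ U B (I n)
      (max (H I n) ((Finset.range (n + 1)).sup (fun i => ψ i n))) := by
    intro y hy
    rw [hq] at hy
    obtain ⟨i, rfl⟩ := hy
    filter_upwards [eventually_ge_atTop i] with n hn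
    refine U_mono _ ?_ (hψ i n)
    exact (Finset.le_sup (f := fun i => ψ i n) (Finset.mem_range.2 (Nat.lt_succ_of_le hn))).trans
      (le_max_right _ _)
  -- the indices of the other points
  have hidx : ∀ y ∈ XS zz x, y ∉ C → ∃ a, c ≤ a ∧ (y = x a ∨ y = zz a - x a) := by
    rintro y (hy | ⟨a, rfl⟩ | ⟨a, rfl⟩) hyC
    · exact absurd (Or.inl hy) hyC
    · refine ⟨a, ?_, Or.inl rfl⟩
      by_contra h
      exact hyC (Or.inr (Or.inl ⟨a, not_le.1 h, rfl⟩))
    · refine ⟨a, ?_, Or.inr rfl⟩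
      by_contra h
      exact hyC (Or.inr (Or.inr ⟨a, not_le.1 h, rfl⟩))
  have : Nonempty Om := ⟨c⟩
  choose! ix hix1 hix2 using hidx
  let F' : Finset Om := (F.filter (fun y => y ∉ C)).image ix
  have hF' : ∀ b ∈ F', c ≤ b := by
    intro b hb
    obtain ⟨y, hy, rfl⟩ := Finset.mem_image.1 hb
    obtain ⟨hy1, hy2⟩ := Finset.mem_filter.1 hy
    exact hix1 y (hF hy1) hy2
  have hinf := aset_infinite hx hdense F' hF'
  rw [hc] at hinf
  have hev : ∀ᶠ n in atTop, ∀ y ∈ F, y ∈ C → y ∈ U B (I n)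
      (max (H I n) ((Finset.range (n + 1)).sup (fun i => ψ i n))) := by
    rw [Filter.eventually_all_finset]
    intro y _
    by_cases hyC : y ∈ C
    · filter_upwards [hqn y hyC] with n hn _ using hn
    · exact Eventually.of_forall fun n h => absurd h hyC
  obtain ⟨N, hN⟩ := eventually_atTop.1 hev
  rw [infinite_iff_exists_gt]
  intro k
  obtain ⟨n, hnA, hn⟩ := hinf.exists_gt (max N k)
  refine ⟨n, ?_, (le_max_right _ _).trans_lt hn⟩
  intro y hy
  by_cases hyC : y ∈ C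
  · exact hN n ((le_max_left _ _).trans hn.le) y hy hyC
  · have hmem : ix y ∈ F' := Finset.mem_image_of_mem _ (Finset.mem_filter.2 ⟨hy, hyC⟩)
    obtain ⟨h1, h2⟩ := hnA (ix y) hmem
    rcases hix2 y (hF hy) hyC with h3 | h3
    · rw [h3]
      exact U_mono _ (le_max_left _ _) h1
    · rw [h3]
      exact U_mono _ (le_max_left _ _) h2

/-- The Rothberger property. -/
theorem rothberger (hb : IsTopologicalBasis (range B))
    {e : Om → ℕ → Set ℕ} (he : Function.Surjective e) {x : Om → ℝ}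
    (hx : ∀ a, Req B H zz e a x (x a)) (𝒱 : ℕ → Set (Set ℝ))
    (hV : ∀ n, ∀ V ∈ 𝒱 n, IsOpen V) (hcov : ∀ n, XS zz x ⊆ ⋃₀ 𝒱 n) :
    ∃ V : ℕ → Set ℝ, (∀ n, V n ∈ 𝒱 n) ∧ XS zz x ⊆ ⋃ n, V n := by
  classical
  -- even indices cover the rationals
  obtain ⟨q, hq⟩ := exists_surjective_nat ℚ
  have h1 : ∀ k, ∃ V ∈ 𝒱 (2 * k), ((q k : ℚ) : ℝ) ∈ V := fun k =>
    hcov (2 * k) (Or.inl ⟨q k, rfl⟩)
  choose V0 hV0 hqV0 using h1
  let G : Set ℝ := ⋃ k, V0 k
  have hGo : IsOpen G := isOpen_iUnion fun k => hV _ _ (hV0 k)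
  have hQG : range ((↑) : ℚ → ℝ) ⊆ G := by
    rintro _ ⟨r, rfl⟩
    obtain ⟨k, rfl⟩ := hq r
    exact mem_iUnion.2 ⟨k, hqV0 k⟩
  have hGU : (⋃ m, U B {i | B i ⊆ G} m) = G := by
    apply Subset.antisymm
    · intro y hy
      obtain ⟨m, hm⟩ := mem_iUnion.1 hy
      obtain ⟨i, hi, -, hyi⟩ := mem_U.1 hm
      exact hi hyi
    · intro y hy
      obtain ⟨_, ⟨i, rfl⟩, hyi, hiG⟩ := hb.exists_subset_of_mem_open hy hGo
      exact mem_iUnion.2 ⟨i, mem_U.2 ⟨i, hiG, le_refl i, hyi⟩⟩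
  obtain ⟨c, hc⟩ := he (fun _ => {i | B i ⊆ G})
  have hdense : DenseCode B (e c) := by
    intro n
    rw [hc, hGU]
    exact Rat.denseRange_cast.mono hQG
  have hlate : ∀ a, c ≤ a → x a ∈ G ∧ zz a - x a ∈ G := by
    intro a ha
    have h2 := (hx a).1 c ha hdense 0
    rw [hc, hGU] at h2
    exact h2
  -- the countable rest
  let C : Set ℝ := range ((↑) : ℚ → ℝ) ∪ (x '' Iio c ∪ (fun a => zz a - x a) '' Iio c)
  have hCc : C.Countable := (countable_range _).union
    (((Pool.Agent.H752R3.countable_Iio_omega1 c).image _).union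
      ((Pool.Agent.H752R3.countable_Iio_omega1 c).image _))
  have hCX : C ⊆ XS zz x := by
    refine union_subset_union_right _ (union_subset_union ?_ ?_)
    · exact image_subset_range _ _
    · exact image_subset_range _ _
  have hCne : C.Nonempty := ⟨((0 : ℚ) : ℝ), Or.inl ⟨0, rfl⟩⟩
  obtain ⟨p, hp⟩ := hCc.exists_eq_range hCne
  have h2 : ∀ k, ∃ V ∈ 𝒱 (2 * k + 1), p k ∈ V := fun k => by
    have : p k ∈ C := by
      rw [hp]
      exact mem_range_self k
    exact hcov (2 * k + 1) (hCX this)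
  choose V1 hV1 hpV1 using h2
  refine ⟨fun n => if Even n then V0 (n / 2) else V1 (n / 2), fun n => ?_, ?_⟩
  · rcases Nat.even_or_odd' n with ⟨k, rfl | rfl⟩
    · have h3 : Even (2 * k) := even_two_mul k
      have h4 : 2 * k / 2 = k := by omega
      simp only [h3, if_true, h4]
      exact hV0 k
    · have h3 : ¬ Even (2 * k + 1) := by
        rw [Nat.not_even_iff_odd]
        exact odd_two_mul_add_one k
      have h4 : (2 * k + 1) / 2 = k := by omega
      simp only [h3, if_false, h4]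
      exact hV1 k
  · have hGsub : G ⊆ ⋃ n, (if Even n then V0 (n / 2) else V1 (n / 2)) := by
      intro y hy
      obtain ⟨k, hk⟩ := mem_iUnion.1 hy
      refine mem_iUnion.2 ⟨2 * k, ?_⟩
      have h3 : Even (2 * k) := even_two_mul k
      have h4 : 2 * k / 2 = k := by omega
      simp only [h3, if_true, h4]
      exact hk
    have hCsub : C ⊆ ⋃ n, (if Even n then V0 (n / 2) else V1 (n / 2)) := by
      intro y hy
      rw [hp] at hy
      obtain ⟨k, rfl⟩ := hy
      refine mem_iUnion.2 ⟨2 * k + 1, ?_⟩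
      have h3 : ¬ Even (2 * k + 1) := by
        rw [Nat.not_even_iff_odd]
        exact odd_two_mul_add_one k
      have h4 : (2 * k + 1) / 2 = k := by omega
      simp only [h3, if_false, h4]
      exact hpV1 k
    rintro y (hy | ⟨a, rfl⟩ | ⟨a, rfl⟩)
    · exact hGsub (hQG hy)
    · rcases le_or_gt c a with h | h
      · exact hGsub (hlate a h).1
      · exact hCsub (Or.inr (Or.inl ⟨a, h, rfl⟩))
    · rcases le_or_gt c a with h | h
      · exact hGsub (hlate a h).2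
      · exact hCsub (Or.inr (Or.inr ⟨a, h, rfl⟩))

/-- The functional form of the Scheepers property, for arbitrary increasing open sets. -/
theorem scheepers (hb : IsTopologicalBasis (range B))
    {e : Om → ℕ → Set ℕ} (he : Function.Surjective e) {x : Om → ℝ}
    (hx : ∀ a, Req B H zz e a x (x a)) (O : ℕ → ℕ → Set ℝ) (hO : ∀ n m, IsOpen (O n m))
    (hmono : ∀ n, Monotone (O n)) (hcov : ∀ n, XS zz x ⊆ ⋃ m, O n m) :
    ∃ h : ℕ → ℕ, ∀ F : Finset ℝ, (F : Set ℝ) ⊆ XS zz x →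
      {n | (F : Set ℝ) ⊆ O n (h n)}.Infinite := by
  classical
  let I : ℕ → Set ℕ := fun n => {i | ∃ m, B i ⊆ O n m}
  have hI : ∀ n, XS zz x ⊆ ⋃ m, U B (I n) m := by
    intro n y hy
    obtain ⟨m, hm⟩ := mem_iUnion.1 (hcov n hy)
    obtain ⟨_, ⟨i, rfl⟩, hyi, hiO⟩ := hb.exists_subset_of_mem_open hm (hO n m)
    exact mem_iUnion.2 ⟨i, mem_U.2 ⟨i, ⟨m, hiO⟩, le_refl i, hyi⟩⟩
  obtain ⟨h, hh⟩ := scheepers_code he hx hI
  have hg : ∀ n i, ∃ m, i ∈ I n → B i ⊆ O n m := by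
    intro n i
    by_cases hi : i ∈ I n
    · obtain ⟨m, hm⟩ := hi
      exact ⟨m, fun _ => hm⟩
    · exact ⟨0, fun h => absurd h hi⟩
  choose g hg using hg
  refine ⟨fun n => (Finset.range (h n + 1)).sup (g n), fun F hF => (hh F hF).mono ?_⟩
  intro n hn y hy
  obtain ⟨i, hi, him, hyi⟩ := mem_U.1 (hn hy)
  exact hmono n (Finset.le_sup (f := g n) (Finset.mem_range.2 (Nat.lt_succ_of_le him)))
    (hg n i hi hyi)

end recursion

theorem exists_basis : ∃ B : ℕ → Set ℝ, (∀ i, IsOpen (B i)) ∧ IsTopologicalBasis (range B) := by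
  obtain ⟨b, hc, -, hb⟩ := exists_countable_basis ℝ
  obtain ⟨B, hB⟩ := hc.exists_eq_range (by
    by_contra h
    rw [not_nonempty_iff_eq_empty] at h
    rw [h] at hb
    have h2 := hb.sUnion_eq
    simp only [sUnion_empty] at h2
    exact empty_ne_univ h2)
  refine ⟨B, fun i => hb.isOpen ?_, hB ▸ hb⟩
  rw [hB]
  exact mem_range_self i

/-- **Main construction.** Under CH there is a set of reals `X` with `[0, 1] ⊆ X + X` which is
Rothberger and has the functional form of the Scheepers property. -/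
theorem exists_set (CH : (ℵ₁ : Cardinal.{0}) = 𝔠) : ∃ X : Set ℝ, X.Nonempty ∧
    (∀ z ∈ Icc (0 : ℝ) 1, ∃ x ∈ X, ∃ y ∈ X, x + y = z) ∧
    (∀ 𝒱 : ℕ → Set (Set ℝ), (∀ n, ∀ V ∈ 𝒱 n, IsOpen V) → (∀ n, X ⊆ ⋃₀ 𝒱 n) →
      ∃ V : ℕ → Set ℝ, (∀ n, V n ∈ 𝒱 n) ∧ X ⊆ ⋃ n, V n) ∧
    (∀ O : ℕ → ℕ → Set ℝ, (∀ n m, IsOpen (O n m)) → (∀ n, Monotone (O n)) →
      (∀ n, X ⊆ ⋃ m, O n m) → ∃ h : ℕ → ℕ, ∀ F : Finset ℝ, (F : Set ℝ) ⊆ X →
        {n | (F : Set ℝ) ⊆ O n (h n)}.Infinite) := by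
  classical
  obtain ⟨B, hB, hb⟩ := exists_basis
  have hH : ∀ I : ℕ → Set ℕ, ∃ h : ℕ → ℕ, DenseCode B I → ∀ n, ∀ z ∈ Icc (0 : ℝ) 1, ∀ j ≤ n,
      (B j).Nonempty → ∃ x ∈ B j, x ∈ U B (I n) (h n) ∧ z - x ∈ U B (I n) (h n) := by
    intro I
    by_cases hI : DenseCode B I
    · obtain ⟨h, hh⟩ := exists_h hB hI
      exact ⟨h, fun _ => hh⟩
    · exact ⟨0, fun h => absurd h hI⟩
  choose H hH using hH
  obtain ⟨e, he⟩ := Pool.Agent.H752R3.exists_surjection_omega1 CH (α := ℕ → Set ℕ) (by simp)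
  have : Nonempty (Icc (0 : ℝ) 1) := ⟨⟨0, by simp⟩⟩
  obtain ⟨z, hz⟩ := Pool.Agent.H752R3.exists_surjection_omega1 CH (α := Icc (0 : ℝ) 1) (by
    refine (Cardinal.mk_set_le _).trans ?_
    rw [Cardinal.mk_real])
  obtain ⟨x, hx⟩ := exists_family (zz := fun a => (z a : ℝ)) hB hb hH (fun a => (z a).2) e
  refine ⟨XS (fun a => (z a : ℝ)) x, ⟨_, Or.inl ⟨0, rfl⟩⟩, fun t ht => ?_,
    fun 𝒱 h1 h2 => rothberger hb he hx 𝒱 h1 h2,
    fun O h1 h2 h3 => scheepers hb he hx O h1 h2 h3⟩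
  obtain ⟨a, ha⟩ := hz ⟨t, ht⟩
  refine ⟨x a, Or.inr (Or.inl ⟨a, rfl⟩), z a - x a, Or.inr (Or.inr ⟨a, rfl⟩), ?_⟩
  rw [ha]
  ring

end Pool.Agent.R824.Sums
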