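import Mathlib

/-!
# Modular real-time trellis automata (definitions and general lemmas)
-/

set_option autoImplicit false

namespace Pool.Agent.R824.TwoTypes

/-- A real-time trellis automaton with input alphabet `S` (embedded in `Γ` by `inp`): label set `Δ`,
labelling `T` of the nodes `(i, j)`, transition functions `g δ` on `(Γ ∪ {λ})²` (here `λ` is
`none`), accepting symbols `acc`. -/
structure RTTA (S : Type) where
  Δ : Type
  Γ : Type
  finΔ : Finite Δ
  finΓ : Finite Γ
  inp : S ↪ Γ
  T : ℕ → ℕ → Δ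
  g : Δ → Option Γ → Option Γ → Γ
  acc : Set Γ

namespace RTTA

variable {S : Type} (A : RTTA S)

/-- `A.out w h i j` is the output of the node `(i, j)` on the input `w` when this node is `h` levels
above the level `w.length - 1`, i.e. when `i + j + h = w.length - 1`. A node `(i, j)` of the input
level gets `(λ, a)` with `a` the `(i + 1)`-st letter of `w`; every other node gets the outputs of
`(i, j + 1)` (left input) and `(i + 1, j)` (right input). -/
def out (w : List S) : ℕ → ℕ → ℕ → A.Γ
  | 0, i, j => A.g (A.T i j) none ((w[i]?).map A.inp)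
  | h + 1, i, j => A.g (A.T i j) (some (out w h i (j + 1))) (some (out w h (i + 1) j))

/-- The language of `A`: the nonempty words for which the output of the node `(0, 0)` is
accepting. -/
def language : Set (List S) := {w | w ≠ [] ∧ A.out w (w.length - 1) 0 0 ∈ A.acc}

/-- The number of types of processors: the number of distinct transition functions. -/
noncomputable def numTypes : ℕ := (Set.range A.g).ncard

end RTTA

/-- `arr p q M k δ` is the `p ^ k × q ^ k` array `M^k_δ` (its entries are `arr p q M k δ i j` with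
`i < p ^ k` and `j < q ^ k`): `M^0_δ` is the `1 × 1` array `δ`, and `M^(k+1)_δ` arises from the
`p × q` array `M δ` by replacing each entry `δ'` by the block `M^k_δ'`; in particular `M^1_δ` is
`M δ`. Only the entries `M δ a b` with `a < p` and `b < q` are used. -/
def arr {Δ : Type} (p q : ℕ) (M : Δ → ℕ → ℕ → Δ) : ℕ → Δ → ℕ → ℕ → Δ
  | 0, d, _, _ => d
  | k + 1, d, i, j => arr p q M k (M d (i / p ^ k) (j / q ^ k)) (i % p ^ k) (j % q ^ k)

/-- The labelling `T` is modular. -/
def Modular {Δ : Type} (T : ℕ → ℕ → Δ) : Prop :=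
  ∃ (p q : ℕ) (d0 : Δ) (M : Δ → ℕ → ℕ → Δ), 2 ≤ p ∧ 2 ≤ q ∧ M d0 0 0 = d0 ∧
    ∀ i j, ∃ K, ∀ k, K ≤ k → i < p ^ k ∧ j < q ^ k ∧ T i j = arr p q M k d0 i j

section arr

variable {Δ : Type} {p q : ℕ} {M : Δ → ℕ → ℕ → Δ}

theorem arr_succ' (hp : 0 < p) (hq : 0 < q) :
    ∀ (k : ℕ) (d : Δ) (i j a b : ℕ), i < p ^ k → j < q ^ k → a < p → b < q →
      arr p q M (k + 1) d (p * i + a) (q * j + b) = M (arr p q M k d i j) a b := by
  intro k
  induction k with
  | zero =>
    intro d i j a b hi hj ha hb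
    have hi0 : i = 0 := by simpa using hi
    have hj0 : j = 0 := by simpa using hj
    subst hi0 hj0
    simp [arr]
  | succ k ih =>
    intro d i j a b hi hj ha hb
    have aux : ∀ (p i a : ℕ), 0 < p → a < p →
        (p * i + a) / p ^ (k + 1) = i / p ^ k ∧ (p * i + a) % p ^ (k + 1) = p * (i % p ^ k) + a := by
      intro p i a hp ha
      have h1 : (p * i + a) / p = i := by
        rw [Nat.mul_add_div hp, Nat.div_eq_of_lt ha, add_zero]
      have h2 : (p * i + a) % p = a := by
        rw [Nat.mul_add_mod, Nat.mod_eq_of_lt ha]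
      constructor
      · rw [pow_succ', ← Nat.div_div_eq_div_mul, h1]
      · rw [pow_succ', Nat.mod_mul, h1, h2, add_comm]
    obtain ⟨e1, e2⟩ := aux p i a hp ha
    obtain ⟨e3, e4⟩ := aux q j b hq hb
    rw [arr, e1, e2, e3, e4, ih _ _ _ _ _ (Nat.mod_lt _ (pow_pos hp k))
      (Nat.mod_lt _ (pow_pos hq k)) ha hb]
    rfl

end arr

/-- The labels of a modular labelling satisfy a substitution rule. -/
theorem Modular.rule {Δ : Type} {T : ℕ → ℕ → Δ} (h : Modular T) :
    ∃ (p q : ℕ) (M : Δ → ℕ → ℕ → Δ), 2 ≤ p ∧ 2 ≤ q ∧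
      ∀ i j a b, a < p → b < q → T (p * i + a) (q * j + b) = M (T i j) a b := by
  obtain ⟨p, q, d0, M, hp, hq, _, hT⟩ := h
  refine ⟨p, q, M, hp, hq, fun i j a b ha hb => ?_⟩
  obtain ⟨K1, h1⟩ := hT i j
  obtain ⟨K2, h2⟩ := hT (p * i + a) (q * j + b)
  obtain ⟨hi, hj, e1⟩ := h1 (max K1 K2) (le_max_left _ _)
  obtain ⟨_, _, e2⟩ := h2 (max K1 K2 + 1) ((le_max_right _ _).trans (Nat.le_succ _))
  rw [e2, arr_succ' (by omega) (by omega) _ _ _ _ _ _ hi hj ha hb, ← e1]

/-- A labelling whose labels determine the labels one level below is modular. -/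
theorem modular_of_congr {Λ : Type} (l : ℕ → ℕ → Λ) (p q : ℕ) (hp : 2 ≤ p) (hq : 2 ≤ q)
    (hl : ∀ i j i' j' a b, a < p → b < q → l i j = l i' j' →
      l (p * i + a) (q * j + b) = l (p * i' + a) (q * j' + b)) : Modular l := by
  classical
  let M : Λ → ℕ → ℕ → Λ := fun c a b =>
    if h : ∃ ij : ℕ × ℕ, l ij.1 ij.2 = c then l (p * h.choose.1 + a) (q * h.choose.2 + b) else c
  have hM : ∀ i j a b, a < p → b < q → M (l i j) a b = l (p * i + a) (q * j + b) := by
    intro i j a b ha hb
    have h : ∃ ij : ℕ × ℕ, l ij.1 ij.2 = l i j := ⟨(i, j), rfl⟩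
    have : M (l i j) a b = l (p * h.choose.1 + a) (q * h.choose.2 + b) := dif_pos h
    rw [this]
    exact hl _ _ _ _ _ _ ha hb h.choose_spec
  have harr : ∀ (k i j r t : ℕ), r < p ^ k → t < q ^ k →
      arr p q M k (l i j) r t = l (p ^ k * i + r) (q ^ k * j + t) := by
    intro k
    induction k with
    | zero =>
      intro i j r t hr ht
      have hr0 : r = 0 := by simpa using hr
      have ht0 : t = 0 := by simpa using ht
      subst hr0 ht0
      simp [arr]
    | succ k ih =>
      intro i j r t hr ht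
      have h1 : r / p ^ k < p := by
        rw [Nat.div_lt_iff_lt_mul (pow_pos (by omega) k)]
        rwa [pow_succ'] at hr
      have h2 : t / q ^ k < q := by
        rw [Nat.div_lt_iff_lt_mul (pow_pos (by omega) k)]
        rwa [pow_succ'] at ht
      rw [arr, hM _ _ _ _ h1 h2, ih _ _ _ _ (Nat.mod_lt _ (pow_pos (by omega) k))
        (Nat.mod_lt _ (pow_pos (by omega) k))]
      congr 1
      · rw [mul_add, pow_succ, mul_assoc, add_assoc, Nat.div_add_mod]
      · rw [mul_add, pow_succ, mul_assoc, add_assoc, Nat.div_add_mod]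
  refine ⟨p, q, l 0 0, M, hp, hq, by simpa using hM 0 0 0 0 (by omega) (by omega), ?_⟩
  intro i j
  refine ⟨max i j, fun k hk => ?_⟩
  have h1 : i < p ^ k := lt_of_lt_of_le (Nat.lt_pow_self (by omega))
    (Nat.pow_le_pow_right (by omega) ((le_max_left i j).trans hk))
  have h2 : j < q ^ k := lt_of_lt_of_le (Nat.lt_pow_self (by omega))
    (Nat.pow_le_pow_right (by omega) ((le_max_right i j).trans hk))
  refine ⟨h1, h2, ?_⟩
  rw [harr k 0 0 i j h1 h2]
  simp

end Pool.Agent.R824.TwoTypes
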