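import Pool.Agent.R824.TwoTypesBase

/-!
# A binary labelling whose windows determine a modular labelling
-/

set_option autoImplicit false

namespace Pool.Agent.R824.TwoTypes

section ext

variable {Δ : Type}

/-- `T` extended to all pairs of integers. -/
def ext (T : ℕ → ℕ → Δ) (z y : ℤ) : Option Δ :=
  if 0 ≤ z ∧ 0 ≤ y then some (T z.toNat y.toNat) else none

theorem ext_nat (T : ℕ → ℕ → Δ) (i j : ℕ) : ext T i j = some (T i j) := by
  simp [ext]

theorem ext_step {T : ℕ → ℕ → Δ} {p q : ℕ} {M : Δ → ℕ → ℕ → Δ} (hp : 2 ≤ p) (hq : 2 ≤ q)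
    (hT : ∀ i j a b, a < p → b < q → T (p * i + a) (q * j + b) = M (T i j) a b) (z y : ℤ) :
    ext T z y = (ext T (z / p) (y / q)).map (fun d => M d (z % p).toNat (y % q).toNat) := by
  unfold ext
  have hp0 : (0 : ℤ) < p := by exact_mod_cast (by omega : 0 < p)
  have hq0 : (0 : ℤ) < q := by exact_mod_cast (by omega : 0 < q)
  by_cases h : 0 ≤ z ∧ 0 ≤ y
  · have h' : 0 ≤ z / p ∧ 0 ≤ y / q := ⟨Int.ediv_nonneg h.1 hp0.le, Int.ediv_nonneg h.2 hq0.le⟩
    rw [if_pos h, if_pos h', Option.map_some]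
    congr 1
    rw [← hT]
    · congr 1
      · have h1 := Int.mul_ediv_add_emod z p
        have h2 := Int.emod_nonneg z hp0.ne'
        have : (z.toNat : ℤ) = ((p * (z / p).toNat + (z % p).toNat : ℕ) : ℤ) := by
          push_cast
          rw [Int.toNat_of_nonneg h.1, Int.toNat_of_nonneg h'.1, Int.toNat_of_nonneg h2, h1]
        exact_mod_cast this
      · have h1 := Int.mul_ediv_add_emod y q
        have h2 := Int.emod_nonneg y hq0.ne'
        have : (y.toNat : ℤ) = ((q * (y / q).toNat + (y % q).toNat : ℕ) : ℤ) := by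
          push_cast
          rw [Int.toNat_of_nonneg h.2, Int.toNat_of_nonneg h'.2, Int.toNat_of_nonneg h2, h1]
        exact_mod_cast this
    · have := Int.emod_lt_of_pos z hp0
      omega
    · have := Int.emod_lt_of_pos y hq0
      omega
  · have h' : ¬ (0 ≤ z / p ∧ 0 ≤ y / q) := by
      rintro ⟨h1, h2⟩
      apply h
      constructor
      · by_contra h3
        push Not at h3
        have := Int.ediv_neg_of_neg_of_pos h3 hp0
        omega
      · by_contra h3
        push Not at h3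
        have := Int.ediv_neg_of_neg_of_pos h3 hq0
        omega
    rw [if_neg h, if_neg h', Option.map_none]

theorem ext_det1 {T : ℕ → ℕ → Δ} {p q : ℕ} {M : Δ → ℕ → ℕ → Δ} (hp : 2 ≤ p) (hq : 2 ≤ q)
    (hT : ∀ i j a b, a < p → b < q → T (p * i + a) (q * j + b) = M (T i j) a b)
    {z y z' y' : ℤ} (h : ext T (z / p) (y / q) = ext T (z' / p) (y' / q))
    (h1 : z % p = z' % p) (h2 : y % q = y' % q) : ext T z y = ext T z' y' := by
  rw [ext_step hp hq hT z y, ext_step hp hq hT z' y', h, h1, h2]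

theorem ext_detm {T : ℕ → ℕ → Δ} {p q : ℕ} {M : Δ → ℕ → ℕ → Δ} (hp : 2 ≤ p) (hq : 2 ≤ q)
    (hT : ∀ i j a b, a < p → b < q → T (p * i + a) (q * j + b) = M (T i j) a b) (m : ℕ) :
    ∀ {z y z' y' : ℤ}, ext T (z / (p : ℤ) ^ m) (y / (q : ℤ) ^ m) =
      ext T (z' / (p : ℤ) ^ m) (y' / (q : ℤ) ^ m) →
    z % (p : ℤ) ^ m = z' % (p : ℤ) ^ m → y % (q : ℤ) ^ m = y' % (q : ℤ) ^ m →
    ext T z y = ext T z' y' := by
  have hp0 : (0 : ℤ) < p := by exact_mod_cast (by omega : 0 < p)
  have hq0 : (0 : ℤ) < q := by exact_mod_cast (by omega : 0 < q)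
  induction m with
  | zero => intro z y z' y' h _ _; simpa using h
  | succ m ih =>
    intro z y z' y' h h1 h2
    have aux : ∀ (p z : ℤ), 0 < p → z / p ^ (m + 1) = (z / p ^ m) / p ∧
        (z / p ^ m) % p = (z % p ^ (m + 1)) / p ^ m ∧ z % p ^ m = (z % p ^ (m + 1)) % p ^ m := by
      intro p z hp
      refine ⟨?_, ?_, ?_⟩
      · rw [pow_succ, Int.ediv_ediv_of_nonneg (by positivity)]
      · have hP : (0 : ℤ) < p ^ m := by positivity
        have e1 := Int.mul_ediv_add_emod z (p ^ m)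
        have e2 := Int.mul_ediv_add_emod (z / p ^ m) p
        have e3 : z / (p ^ m * p) = z / p ^ m / p := by
          rw [Int.ediv_ediv_of_nonneg (by positivity)]
        have e4 := Int.mul_ediv_add_emod z (p ^ m * p)
        rw [e3] at e4
        have key : z % (p ^ m * p) = z % p ^ m + p ^ m * ((z / p ^ m) % p) := by
          linear_combination e4 - e1 - p ^ m * e2
        rw [pow_succ, key, Int.add_mul_ediv_left _ _ hP.ne',
          Int.ediv_eq_zero_of_lt (Int.emod_nonneg _ hP.ne') (Int.emod_lt_of_pos _ hP), zero_add]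
      · rw [Int.emod_emod_of_dvd]
        exact ⟨p, pow_succ p m⟩
    obtain ⟨a1, a2, a3⟩ := aux p z hp0
    obtain ⟨b1, b2, b3⟩ := aux p z' hp0
    obtain ⟨c1, c2, c3⟩ := aux q y hq0
    obtain ⟨d1, d2, d3⟩ := aux q y' hq0
    rw [a1, b1, c1, d1] at h
    apply ih
    · apply ext_det1 hp hq hT h
      · rw [a2, b2, h1]
      · rw [c2, d2, h2]
    · rw [a3, b3, h1]
    · rw [c3, d3, h2]

end ext

/-! ### The code -/

section code

variable {Δ : Type} (T : ℕ → ℕ → Δ) (w : ℕ)

/-- The pattern of `T` around the aligned square of side `w` number `(A, B)`. -/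
def pat (A B : ℕ) : Fin (5 * w + 1) → Fin (5 * w + 1) → Option Δ := fun x y =>
  ext T ((w : ℤ) * A + x - w) ((w : ℤ) * B + y - w)

theorem pat_eq {A B A' B' : ℕ} (h : pat T w A B = pat T w A' B') (x y : ℤ) (hx : -w ≤ x)
    (hx' : x ≤ 4 * w) (hy : -w ≤ y) (hy' : y ≤ 4 * w) :
    ext T ((w : ℤ) * A + x) ((w : ℤ) * B + y) = ext T ((w : ℤ) * A' + x) ((w : ℤ) * B' + y) := by
  have h1 := congrFun (congrFun h ⟨(x + w).toNat, by omega⟩) ⟨(y + w).toNat, by omega⟩
  unfold pat at h1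
  simp only at h1
  rw [Int.toNat_of_nonneg (by omega), Int.toNat_of_nonneg (by omega)] at h1
  have e : ∀ a b c : ℤ, a + (b + c) - c = a + b := fun a b c => by ring
  rwa [e, e, e, e] at h1

/-- Equality of the windows of radius `R` around two nodes. -/
def WEq (R : ℕ) (i j i' j' : ℕ) : Prop :=
  ∀ x y : ℤ, -R ≤ x → x ≤ R → -R ≤ y → y ≤ R →
    ext T (i + x) (j + y) = ext T (i' + x) (j' + y)

/-- The labels of the new trellis: the residues modulo `w` and the window of radius `5 w`. -/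
def lab (i j : ℕ) : ZMod w × ZMod w × (Fin (10 * w + 1) → Fin (10 * w + 1) → Option Δ) :=
  (i, j, fun x y => ext T (i + x - (5 * w : ℕ)) (j + y - (5 * w : ℕ)))

theorem lab_eq_iff {i j i' j' : ℕ} : lab T w i j = lab T w i' j' ↔
    i % w = i' % w ∧ j % w = j' % w ∧ WEq T (5 * w) i j i' j' := by
  unfold lab WEq
  rw [Prod.mk.injEq, Prod.mk.injEq, ZMod.natCast_eq_natCast_iff', ZMod.natCast_eq_natCast_iff']
  refine and_congr_right fun _ => and_congr_right fun _ => ?_
  constructor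
  · intro h x y hx hx' hy hy'
    have h1 := congrFun (congrFun h ⟨(x + (5 * w : ℕ)).toNat, by omega⟩)
      ⟨(y + (5 * w : ℕ)).toNat, by omega⟩
    simp only at h1
    rw [Int.toNat_of_nonneg (by omega), Int.toNat_of_nonneg (by omega)] at h1
    have e : ∀ a b c : ℤ, a + (b + c) - c = a + b := fun a b c => by ring
    rwa [e, e, e, e] at h1
  · intro h
    funext x y
    have := h (x - (5 * w : ℕ)) (y - (5 * w : ℕ)) (by omega) (by omega) (by omega) (by omega)
    have e : ∀ a b c : ℤ, a + (b - c) = a + b - c := fun a b c => by ring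
    rwa [e, e, e, e] at this

theorem lab_congr {p q : ℕ} {M : Δ → ℕ → ℕ → Δ} (hp : 2 ≤ p) (hq : 2 ≤ q) (hw : 1 ≤ w)
    (hT : ∀ i j a b, a < p → b < q → T (p * i + a) (q * j + b) = M (T i j) a b)
    (i j i' j' a b : ℕ) (ha : a < p) (hb : b < q) (h : lab T w i j = lab T w i' j') :
    lab T w (p * i + a) (q * j + b) = lab T w (p * i' + a) (q * j' + b) := by
  rw [lab_eq_iff] at h ⊢
  obtain ⟨h1, h2, h3⟩ := h
  have hp0 : (0 : ℤ) < p := by exact_mod_cast (by omega : 0 < p)
  have hq0 : (0 : ℤ) < q := by exact_mod_cast (by omega : 0 < q)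
  refine ⟨?_, ?_, ?_⟩
  · exact Nat.ModEq.add_right a (Nat.ModEq.mul_left p h1)
  · exact Nat.ModEq.add_right b (Nat.ModEq.mul_left q h2)
  · intro x y hx hx' hy hy'
    have aux : ∀ (p i a : ℕ) (x : ℤ), 2 ≤ p → a < p → -((5 * w : ℕ) : ℤ) ≤ x →
        x ≤ ((5 * w : ℕ) : ℤ) →
        ((p * i + a : ℕ) + x) / (p : ℤ) = i + (a + x) / p ∧
        ((p * i + a : ℕ) + x) % (p : ℤ) = (a + x) % p ∧
        -((5 * w : ℕ) : ℤ) ≤ (a + x) / p ∧ (a + x) / p ≤ ((5 * w : ℕ) : ℤ) := by
      intro p i a x hp ha hx hx'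
      have hp0 : (0 : ℤ) < p := by exact_mod_cast (by omega : 0 < p)
      have e : ((p * i + a : ℕ) + x) = (a + x) + (p : ℤ) * i := by push_cast; ring
      refine ⟨?_, ?_, ?_, ?_⟩
      · rw [e, Int.add_mul_ediv_left _ _ hp0.ne', add_comm]
      · rw [e, Int.add_mul_emod_self_left]
      · rw [Int.le_ediv_iff_mul_le hp0]
        have : (0 : ℤ) ≤ ((5 * w : ℕ) : ℤ) := by positivity
        nlinarith
      · apply Int.le_of_lt_add_one
        rw [Int.ediv_lt_iff_lt_mul hp0]
        have h5 : (1 : ℤ) ≤ ((5 * w : ℕ) : ℤ) := by exact_mod_cast (by omega : 1 ≤ 5 * w)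
        have ha' : (a : ℤ) < p := by exact_mod_cast ha
        have hp2 : (2 : ℤ) ≤ p := by exact_mod_cast hp
        nlinarith
    obtain ⟨a1, a2, a3, a4⟩ := aux p i a x hp ha hx hx'
    obtain ⟨b1, b2, _, _⟩ := aux p i' a x hp ha hx hx'
    obtain ⟨c1, c2, c3, c4⟩ := aux q j b y hq hb hy hy'
    obtain ⟨d1, d2, _, _⟩ := aux q j' b y hq hb hy hy'
    apply ext_det1 hp hq hT
    · rw [a1, b1, c1, d1]
      exact h3 _ _ a3 a4 c3 c4
    · rw [a2, b2]
    · rw [c2, d2]

variable {T w}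

/-- The bits of the new trellis: `e` codes the patterns. -/
def bit (e : Set.range (fun AB : ℕ × ℕ => pat T w AB.1 AB.2) ↪ (Fin w → Bool)) (i j : ℕ) : Prop :=
  (i % w < 2 ∧ j % w < 2) ∨ (i % w = 3 ∧ ∃ h : j % w < w,
    e ⟨pat T w (i / w) (j / w), ⟨(i / w, j / w), rfl⟩⟩ ⟨j % w, h⟩ = true)

theorem bit_congr (e : Set.range (fun AB : ℕ × ℕ => pat T w AB.1 AB.2) ↪ (Fin w → Bool))
    {i j i' j' : ℕ} (h : lab T w i j = lab T w i' j') : bit e i j ↔ bit e i' j' := by
  rw [lab_eq_iff] at h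
  obtain ⟨h1, h2, h3⟩ := h
  have key : pat T w (i / w) (j / w) = pat T w (i' / w) (j' / w) := by
    rcases Nat.eq_zero_or_pos w with hw | hw
    · subst hw
      funext x y
      have := h3 0 0 (by simp) (by simp) (by simp) (by simp)
      simp [pat]
    funext x y
    unfold pat
    have hi := Nat.div_add_mod i w
    have hi' := Nat.div_add_mod i' w
    have hj := Nat.div_add_mod j w
    have hj' := Nat.div_add_mod j' w
    have b1 := Nat.mod_lt i hw
    have b2 := Nat.mod_lt j hw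
    have := h3 (x - w - (i % w : ℕ)) (y - w - (j % w : ℕ)) (by omega) (by omega) (by omega)
      (by omega)
    have e1 : (w : ℤ) * (i / w : ℕ) + x - w = i + (x - w - (i % w : ℕ)) := by
      have : ((w * (i / w) + i % w : ℕ) : ℤ) = (i : ℤ) := by rw [hi]
      push_cast at this ⊢
      linarith
    have e2 : (w : ℤ) * (i' / w : ℕ) + x - w = i' + (x - w - (i % w : ℕ)) := by
      have : ((w * (i' / w) + i' % w : ℕ) : ℤ) = (i' : ℤ) := by rw [hi']
      rw [h1]
      push_cast at this ⊢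
      linarith
    have e3 : (w : ℤ) * (j / w : ℕ) + y - w = j + (y - w - (j % w : ℕ)) := by
      have : ((w * (j / w) + j % w : ℕ) : ℤ) = (j : ℤ) := by rw [hj]
      push_cast at this ⊢
      linarith
    have e4 : (w : ℤ) * (j' / w : ℕ) + y - w = j' + (y - w - (j % w : ℕ)) := by
      have : ((w * (j' / w) + j' % w : ℕ) : ℤ) = (j' : ℤ) := by rw [hj']
      rw [h2]
      push_cast at this ⊢
      linarith
    rw [e1, e2, e3, e4]
    exact this
  unfold bit
  simp only [h1, h2, key]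

/-- The bits in a triangle of side `4 w` determine the labels in this triangle. -/
theorem bit_det (hw : 5 ≤ w)
    (e : Set.range (fun AB : ℕ × ℕ => pat T w AB.1 AB.2) ↪ (Fin w → Bool)) {i j i' j' : ℕ}
    (h : ∀ a b, a + b ≤ 4 * w → (bit e (i + a) (j + b) ↔ bit e (i' + a) (j' + b))) (a b : ℕ)
    (hab : a + b ≤ 4 * w) : T (i + a) (j + b) = T (i' + a) (j' + b) := by
  -- the alignment
  have hal : ∀ i : ℕ, ∃ s, s < w ∧ ∃ A, i + s = w * A := by
    intro i
    refine ⟨(w - i % w) % w, Nat.mod_lt _ (by omega), ?_⟩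
    have h1 := Nat.div_add_mod i w
    have h2 := Nat.mod_lt i (by omega : 0 < w)
    rcases Nat.eq_zero_or_pos (i % w) with h0 | h0
    · refine ⟨i / w, ?_⟩
      rw [h0, Nat.sub_zero, Nat.mod_self]
      omega
    · refine ⟨i / w + 1, ?_⟩
      rw [Nat.mod_eq_of_lt (by omega), mul_add]
      omega
  obtain ⟨s, hs, A, hA⟩ := hal i
  obtain ⟨t, ht, B, hB⟩ := hal j
  have hmod : ∀ (A r : ℕ), r < w → (w * A + r) % w = r ∧ (w * A + r) / w = A := by
    intro A r hr
    constructor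
    · rw [Nat.mul_add_mod, Nat.mod_eq_of_lt hr]
    · rw [Nat.mul_add_div (by omega), Nat.div_eq_of_lt hr, add_zero]
  -- the four bits of the corner
  have hc : ∀ x y, x < 2 → y < 2 → bit e (i' + (s + x)) (j' + (t + y)) := by
    intro x y hx hy
    rw [← h (s + x) (t + y) (by omega)]
    left
    rw [← add_assoc, hA, ← add_assoc, hB, (hmod A x (by omega)).1, (hmod B y (by omega)).1]
    exact ⟨hx, hy⟩
  have hrow : ∀ x y, x < 2 → y < 2 → (i' + (s + x)) % w < 2 ∨ (i' + (s + x)) % w = 3 := by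
    intro x y hx hy
    rcases hc x y hx hy with h1 | h1
    · exact Or.inl h1.1
    · exact Or.inr h1.1
  have hnext : ∀ z : ℕ, (z + 1) % w = if z % w + 1 = w then 0 else z % w + 1 := by
    intro z
    have h1 := Nat.mod_lt z (by omega : 0 < w)
    rw [Nat.add_mod, Nat.mod_eq_of_lt (by omega : 1 < w)]
    split_ifs with h2
    · rw [h2, Nat.mod_self]
    · exact Nat.mod_eq_of_lt (by omega)
  have hi0 : (i' + s) % w = 0 := by
    have h1 := hrow 0 0 (by norm_num) (by norm_num)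
    have h2 := hrow 1 0 (by norm_num) (by norm_num)
    rw [add_zero] at h1
    rw [← add_assoc, hnext] at h2
    split_ifs at h2 with h3 <;> omega
  have hj0 : (j' + t) % w = 0 := by
    have hcol : ∀ y, y < 2 → (j' + (t + y)) % w < 2 := by
      intro y hy
      rcases hc 0 y (by norm_num) hy with h1 | h1
      · exact h1.2
      · exfalso
        have := h1.1
        rw [add_zero] at this
        omega
    have h1 := hcol 0 (by norm_num)
    have h2 := hcol 1 (by norm_num)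
    rw [add_zero] at h1
    rw [← add_assoc, hnext] at h2
    split_ifs at h2 with h3 <;> omega
  obtain ⟨A', hA'⟩ : ∃ A', i' + s = w * A' := by
    obtain ⟨A', hA'⟩ := Nat.dvd_of_mod_eq_zero hi0
    exact ⟨A', hA'⟩
  obtain ⟨B', hB'⟩ : ∃ B', j' + t = w * B' := by
    obtain ⟨B', hB'⟩ := Nat.dvd_of_mod_eq_zero hj0
    exact ⟨B', hB'⟩
  -- the contents
  have hpat : pat T w A B = pat T w A' B' := by
    have hee : e ⟨pat T w A B, ⟨(A, B), rfl⟩⟩ = e ⟨pat T w A' B', ⟨(A', B'), rfl⟩⟩ := by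
      funext y
      have h1 := h (s + 3) (t + y) (by have := y.2; omega)
      rw [← add_assoc, ← add_assoc, hA, hB, ← add_assoc, ← add_assoc, hA', hB'] at h1
      unfold bit at h1
      obtain ⟨m1, m2⟩ := hmod A 3 (by omega)
      obtain ⟨m3, m4⟩ := hmod B y y.2
      obtain ⟨m5, m6⟩ := hmod A' 3 (by omega)
      obtain ⟨m7, m8⟩ := hmod B' y y.2
      simp only [m1, m2, m3, m4, m5, m6, m7, m8] at h1
      have h2 : e ⟨pat T w A B, ⟨(A, B), rfl⟩⟩ y = true ↔
          e ⟨pat T w A' B', ⟨(A', B'), rfl⟩⟩ y = true := by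
        constructor
        · intro h3
          rcases h1.1 (Or.inr ⟨trivial, y.2, h3⟩) with h4 | ⟨_, _, h4⟩
          · omega
          · exact h4
        · intro h3
          rcases h1.2 (Or.inr ⟨trivial, y.2, h3⟩) with h4 | ⟨_, _, h4⟩
          · omega
          · exact h4
      exact Bool.eq_iff_iff.2 h2
    have := e.injective hee
    exact congrArg Subtype.val this
  have h1 := pat_eq T w hpat (a - s) (b - t) (by omega) (by omega) (by omega) (by omega)
  have e1 : (w : ℤ) * A + (a - s) = ((i + a : ℕ) : ℤ) := by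
    have : ((w * A : ℕ) : ℤ) = ((i + s : ℕ) : ℤ) := by rw [hA]
    push_cast at this ⊢
    linarith
  have e2 : (w : ℤ) * A' + (a - s) = ((i' + a : ℕ) : ℤ) := by
    have : ((w * A' : ℕ) : ℤ) = ((i' + s : ℕ) : ℤ) := by rw [hA']
    push_cast at this ⊢
    linarith
  have e3 : (w : ℤ) * B + (b - t) = ((j + b : ℕ) : ℤ) := by
    have : ((w * B : ℕ) : ℤ) = ((j + t : ℕ) : ℤ) := by rw [hB]
    push_cast at this ⊢
    linarith
  have e4 : (w : ℤ) * B' + (b - t) = ((j' + b : ℕ) : ℤ) := by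
    have : ((w * B' : ℕ) : ℤ) = ((j' + t : ℕ) : ℤ) := by rw [hB']
    push_cast at this ⊢
    linarith
  rw [e1, e2, e3, e4, ext_nat, ext_nat] at h1
  exact Option.some.inj h1

/-- The patterns can be coded if `w` is a large power of two. -/
theorem exists_code [Finite Δ] (T : ℕ → ℕ → Δ) {p q : ℕ} {M : Δ → ℕ → ℕ → Δ} (hp : 2 ≤ p)
    (hq : 2 ≤ q) (hT : ∀ i j a b, a < p → b < q → T (p * i + a) (q * j + b) = M (T i j) a b) :
    ∃ w, 5 ≤ w ∧
      Nonempty (Set.range (fun AB : ℕ × ℕ => pat T w AB.1 AB.2) ↪ (Fin w → Bool)) := by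
  classical
  have := Fintype.ofFinite Δ
  obtain ⟨L, hL1, hL2⟩ : ∃ L, p * q ≤ 2 ^ L ∧ Fintype.card (Option Δ) ^ 4 ≤ 2 ^ L := by
    refine ⟨max (p * q) (Fintype.card (Option Δ) ^ 4), ?_, ?_⟩
    · exact (Nat.lt_two_pow_self).le.trans (Nat.pow_le_pow_right (by norm_num) (le_max_left _ _))
    · exact (Nat.lt_two_pow_self).le.trans (Nat.pow_le_pow_right (by norm_num) (le_max_right _ _))
  obtain ⟨k, hk5, hk⟩ : ∃ k, 5 ≤ k ∧ L * (k + 3) + L ≤ 2 ^ k := by
    refine ⟨2 * L + 5, by omega, ?_⟩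
    have h1 : L < 2 ^ L := Nat.lt_two_pow_self
    have h2 : 2 ^ (2 * L + 5) = 32 * (2 ^ L * 2 ^ L) := by
      rw [pow_add, two_mul, pow_add]; ring
    rw [h2]
    nlinarith
  refine ⟨2 ^ k, ?_, ?_⟩
  · calc 5 ≤ 2 ^ 5 := by norm_num
      _ ≤ 2 ^ k := Nat.pow_le_pow_right (by norm_num) hk5
  set w := 2 ^ k with hw
  set m := k + 3 with hm
  have hbig : ∀ p : ℕ, 2 ≤ p → 5 * w + 1 ≤ p ^ m := by
    intro p hp
    calc 5 * w + 1 ≤ 8 * w := by
          have : 1 ≤ w := Nat.one_le_two_pow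
          omega
      _ = 2 ^ m := by rw [hm, hw, pow_add]; norm_num; ring
      _ ≤ p ^ m := Nat.pow_le_pow_left hp m
  have hP := hbig p hp
  have hQ := hbig q hq
  set P := p ^ m with hPdef
  set Q := q ^ m with hQdef
  have hP0 : (0 : ℤ) < (p : ℤ) ^ m := by positivity
  have hQ0 : (0 : ℤ) < (q : ℤ) ^ m := by positivity
  have hPc : ((P : ℕ) : ℤ) = (p : ℤ) ^ m := by rw [hPdef]; push_cast; rfl
  have hQc : ((Q : ℕ) : ℤ) = (q : ℤ) ^ m := by rw [hQdef]; push_cast; rfl
  let z : ℕ → ℤ := fun A => (w : ℤ) * A - w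
  let key : ℕ × ℕ → Fin P × Fin Q × (Fin 2 → Fin 2 → Option Δ) := fun AB =>
    (⟨(z AB.1 % (p : ℤ) ^ m).toNat, by
        have := Int.emod_lt_of_pos (z AB.1) hP0
        omega⟩,
     ⟨(z AB.2 % (q : ℤ) ^ m).toNat, by
        have := Int.emod_lt_of_pos (z AB.2) hQ0
        omega⟩,
     fun x y => ext T (z AB.1 / (p : ℤ) ^ m + (x : ℕ)) (z AB.2 / (q : ℤ) ^ m + (y : ℕ)))
  have hkey : ∀ AB AB' : ℕ × ℕ, key AB = key AB' →
      pat T w AB.1 AB.2 = pat T w AB'.1 AB'.2 := by
    intro AB AB' h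
    simp only [key, Prod.mk.injEq, Fin.mk.injEq] at h
    obtain ⟨h1, h2, h3⟩ := h
    have h1' : z AB.1 % (p : ℤ) ^ m = z AB'.1 % (p : ℤ) ^ m := by
      have a1 := Int.emod_nonneg (z AB.1) hP0.ne'
      have a2 := Int.emod_nonneg (z AB'.1) hP0.ne'
      omega
    have h2' : z AB.2 % (q : ℤ) ^ m = z AB'.2 % (q : ℤ) ^ m := by
      have a1 := Int.emod_nonneg (z AB.2) hQ0.ne'
      have a2 := Int.emod_nonneg (z AB'.2) hQ0.ne'
      omega
    funext x y
    unfold pat
    have aux : ∀ (u P x : ℤ), 0 < P → 0 ≤ x → x < P → (u + x) / P = u / P + (u % P + x) / P ∧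
        (u + x) % P = (u % P + x) % P ∧ (((u % P + x) / P = ((0 : Fin 2) : ℕ)) ∨
          ((u % P + x) / P = ((1 : Fin 2) : ℕ))) := by
      intro u P x hP hx hx'
      have b1 := Int.emod_nonneg u hP.ne'
      have b2 := Int.emod_lt_of_pos u hP
      refine ⟨?_, ?_, ?_⟩
      · have e : u + x = (u % P + x) + P * (u / P) := by
          have := Int.mul_ediv_add_emod u P
          linarith
        rw [e, Int.add_mul_ediv_left _ _ hP.ne', add_comm]
      · rw [Int.emod_add_emod]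
      · rcases lt_or_ge (u % P + x) P with h | h
        · left
          rw [Int.ediv_eq_zero_of_lt (by omega) h]
          simp
        · right
          have : (u % P + x) / P = 1 := by
            have e : u % P + x = (u % P + x - P) + P * 1 := by ring
            rw [e, Int.add_mul_ediv_left _ _ hP.ne', Int.ediv_eq_zero_of_lt (by omega) (by omega)]
            rfl
          rw [this]
          simp
    have hx := x.2
    have hy := y.2
    have hx0 : (0 : ℤ) ≤ ((x : ℕ) : ℤ) := by positivity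
    have hy0 : (0 : ℤ) ≤ ((y : ℕ) : ℤ) := by positivity
    have hxP : ((x : ℕ) : ℤ) < (p : ℤ) ^ m := by omega
    have hyQ : ((y : ℕ) : ℤ) < (q : ℤ) ^ m := by omega
    obtain ⟨a1, a2, a3⟩ := aux (z AB.1) _ _ hP0 hx0 hxP
    obtain ⟨b1, b2, _⟩ := aux (z AB'.1) _ _ hP0 hx0 hxP
    obtain ⟨c1, c2, c3⟩ := aux (z AB.2) _ _ hQ0 hy0 hyQ
    obtain ⟨d1, d2, _⟩ := aux (z AB'.2) _ _ hQ0 hy0 hyQ
    rw [← h1'] at b1 b2
    rw [← h2'] at d1 d2
    have ez : ∀ (A : ℕ) (x : ℤ), (w : ℤ) * A + x - w = z A + x := by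
      intro A x
      simp only [z]
      ring
    rw [ez, ez, ez, ez]
    apply ext_detm hp hq hT m
    · rw [a1, b1, c1, d1]
      rcases a3 with a3 | a3 <;> rcases c3 with c3 | c3 <;> rw [a3, c3]
      · exact congrFun (congrFun h3 0) 0
      · exact congrFun (congrFun h3 0) 1
      · exact congrFun (congrFun h3 1) 0
      · exact congrFun (congrFun h3 1) 1
    · rw [a2, b2]
    · rw [c2, d2]
  have hcard : Fintype.card (Fin P × Fin Q × (Fin 2 → Fin 2 → Option Δ)) ≤
      Fintype.card (Fin w → Bool) := by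
    simp only [Fintype.card_prod, Fintype.card_fin, Fintype.card_fun, Fintype.card_bool]
    calc P * (Q * ((Fintype.card (Option Δ)) ^ 2) ^ 2)
        = (p * q) ^ m * Fintype.card (Option Δ) ^ 4 := by
          rw [hPdef, hQdef, mul_pow, ← pow_mul, ← mul_assoc]
      _ ≤ (2 ^ L) ^ m * 2 ^ L := Nat.mul_le_mul (Nat.pow_le_pow_left hL1 m) hL2
      _ = 2 ^ (L * (k + 3) + L) := by rw [← pow_mul, ← pow_add]
      _ ≤ 2 ^ w := Nat.pow_le_pow_right (by norm_num) hk
  obtain ⟨f⟩ := Function.Embedding.nonempty_of_card_le hcard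
  refine ⟨⟨fun c => f (key c.2.choose), fun c c' h => ?_⟩⟩
  have h1 := hkey _ _ (f.injective h)
  apply Subtype.ext
  have h2 := c.2.choose_spec
  have h3 := c'.2.choose_spec
  simp only at h2 h3
  rw [← h2, ← h3]
  exact h1

end code

end Pool.Agent.R824.TwoTypes
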