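import Pool.Agent.R824.TwoTypesCode

/-!
# The delayed simulation
-/

set_option autoImplicit false

namespace Pool.Agent.R824.TwoTypes

open Classical

section sim

variable {S : Type} (A : RTTA S) (D : ℕ) (β : ℕ → ℕ → Prop)

/-- The states of the simulating automaton. -/
abbrev State : Type :=
  Fin (D + 1) × (Fin (D + 1) → Fin (D + 1) → Option Prop) × (Fin (D + 1) → Option (Option S)) ×
    (Fin (D + 1) → Option A.Γ)

/-- The state of node `(i, j)`, `h` levels above the input level: the bits below this node up to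
depth `D`, the letters below this node if `h < D`, and the outputs of `A` at the nodes which are `D`
levels deeper if `D ≤ h`. -/
noncomputable def st (w : List S) (h i j : ℕ) : State A D :=
  (⟨min h D, by omega⟩,
    fun a b => if (a : ℕ) + b ≤ min h D then some (β (i + a) (j + b)) else none,
    fun a => if (a : ℕ) ≤ h ∧ h < D then some (w[i + a]?) else none,
    fun a => if D ≤ h then some (A.out w (h - D) (i + a) (j + (D - a))) else none)

variable {A D β}

theorem st_min {w w' : List S} {h h' i j i' j' : ℕ} (e : st A D β w h i j = st A D β w' h' i' j') :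
    min h D = min h' D := by
  have := congrArg (fun s => (s.1 : ℕ)) e
  simpa [st] using this

theorem st_bits {w w' : List S} {h h' i j i' j' : ℕ} (e : st A D β w h i j = st A D β w' h' i' j')
    (a b : ℕ) (hab : a + b ≤ min h D) : β (i + a) (j + b) ↔ β (i' + a) (j' + b) := by
  have h1 := st_min e
  have h2 := congrArg (fun s => s.2.1 ⟨a, by omega⟩ ⟨b, by omega⟩) e
  simp only [st] at h2
  rw [if_pos (by omega), if_pos (by omega)] at h2
  exact iff_of_eq (Option.some.inj h2)

theorem st_letters {w w' : List S} {h h' i j i' j' : ℕ}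
    (e : st A D β w h i j = st A D β w' h' i' j') (hD : h < D) (a : ℕ) (ha : a ≤ h) :
    w[i + a]? = w'[i' + a]? := by
  have h1 := st_min e
  have h2 := congrArg (fun s => s.2.2.1 ⟨a, by omega⟩) e
  simp only [st] at h2
  rw [if_pos ⟨ha, hD⟩, if_pos ⟨by omega, by omega⟩] at h2
  exact Option.some.inj h2

theorem st_outs {w w' : List S} {h h' i j i' j' : ℕ}
    (e : st A D β w h i j = st A D β w' h' i' j') (hD : D ≤ h) (a : ℕ) (ha : a ≤ D) :
    A.out w (h - D) (i + a) (j + (D - a)) = A.out w' (h' - D) (i' + a) (j' + (D - a)) := by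
  have h1 := st_min e
  have h2 := congrArg (fun s => s.2.2.2 ⟨a, by omega⟩) e
  simp only [st] at h2
  rw [if_pos hD, if_pos (by omega)] at h2
  exact Option.some.inj h2

theorem st_ext {w w' : List S} {h h' i j i' j' : ℕ} (h1 : min h D = min h' D)
    (h2 : ∀ a b, a + b ≤ min h D → (β (i + a) (j + b) ↔ β (i' + a) (j' + b)))
    (h3 : h < D → ∀ a, a ≤ h → w[i + a]? = w'[i' + a]?)
    (h4 : D ≤ h → ∀ a, a ≤ D →
      A.out w (h - D) (i + a) (j + (D - a)) = A.out w' (h' - D) (i' + a) (j' + (D - a))) :
    st A D β w h i j = st A D β w' h' i' j' := by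
  unfold st
  refine Prod.ext (Fin.ext h1) (Prod.ext ?_ (Prod.ext ?_ ?_))
  · funext a b
    simp only
    by_cases hab : (a : ℕ) + b ≤ min h D
    · rw [if_pos hab, if_pos (by omega), h2 a b hab]
    · rw [if_neg hab, if_neg (by omega)]
  · funext a
    simp only
    by_cases ha : (a : ℕ) ≤ h ∧ h < D
    · rw [if_pos ha, if_pos ⟨by omega, by omega⟩, h3 ha.2 a ha.1]
    · rw [if_neg ha, if_neg (by omega)]
  · funext a
    simp only
    by_cases ha : D ≤ h
    · rw [if_pos ha, if_pos (by omega), h4 ha a (by omega)]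
    · rw [if_neg ha, if_neg (by omega)]

variable (hdet : ∀ i j i' j', (∀ a b, a + b ≤ D → (β (i + a) (j + b) ↔ β (i' + a) (j' + b))) →
  ∀ a b, a + b ≤ D → A.T (i + a) (j + b) = A.T (i' + a) (j' + b))

include hdet in
theorem st_step {w w' : List S} {h h' i j i' j' : ℕ} (hb : β i j ↔ β i' j')
    (hl : st A D β w h i (j + 1) = st A D β w' h' i' (j' + 1))
    (hr : st A D β w h (i + 1) j = st A D β w' h' (i' + 1) j') :
    st A D β w (h + 1) i j = st A D β w' (h' + 1) i' j' := by
  have hmin := st_min hl
  have hbits : ∀ a b, a + b ≤ min (h + 1) D → (β (i + a) (j + b) ↔ β (i' + a) (j' + b)) := by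
    intro a b hab
    rcases Nat.eq_zero_or_pos b with h0 | h0
    · rcases Nat.eq_zero_or_pos a with h1 | h1
      · subst h0 h1
        exact hb
      · obtain ⟨a, rfl⟩ : ∃ a', a = a' + 1 := ⟨a - 1, by omega⟩
        have := st_bits hr a b (by omega)
        rwa [add_assoc, add_assoc, add_comm 1 a] at this
    · obtain ⟨b, rfl⟩ : ∃ b', b = b' + 1 := ⟨b - 1, by omega⟩
      have := st_bits hl a b (by omega)
      rwa [add_assoc j, add_assoc j', add_comm 1 b] at this
  have hlet : h < D → ∀ a, a ≤ h + 1 → w[i + a]? = w'[i' + a]? := by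
    intro hD a ha
    rcases Nat.eq_zero_or_pos a with h0 | h0
    · subst h0
      exact st_letters hl hD 0 (Nat.zero_le _)
    · obtain ⟨a, rfl⟩ : ∃ a', a = a' + 1 := ⟨a - 1, by omega⟩
      have := st_letters hr hD a (by omega)
      rwa [add_assoc, add_assoc, add_comm 1 a] at this
  refine st_ext (by omega) hbits (fun hD a ha => hlet (by omega) a ha) ?_
  intro hD a ha
  have hT := hdet i j i' j' (fun a b hab => hbits a b (by omega)) a (D - a) (by omega)
  rcases Nat.lt_or_ge h D with h0 | h0
  · have e1 : h + 1 - D = 0 := by omega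
    have e2 : h' + 1 - D = 0 := by omega
    rw [e1, e2]
    simp only [RTTA.out]
    rw [hT, hlet h0 a (by omega)]
  · have e1 : h + 1 - D = (h - D) + 1 := by omega
    have e2 : h' + 1 - D = (h' - D) + 1 := by omega
    rw [e1, e2]
    simp only [RTTA.out]
    have h1 := st_outs hl h0 a ha
    have h2 := st_outs hr h0 a ha
    have e3 : ∀ j : ℕ, j + 1 + (D - a) = j + (D - a) + 1 := fun j => by omega
    have e4 : ∀ i : ℕ, i + 1 + a = i + a + 1 := fun i => by omega
    rw [e3, e3] at h1
    rw [e4, e4] at h2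
    rw [hT, h1, h2]

theorem st_base (hD : 0 < D) {w w' : List S} {i j i' j' : ℕ} (hb : β i j ↔ β i' j')
    (hw : w[i]? = w'[i']?) : st A D β w 0 i j = st A D β w' 0 i' j' := by
  refine st_ext rfl ?_ ?_ ?_
  · intro a b hab
    have ha : a = 0 := by omega
    have hb' : b = 0 := by omega
    subst ha hb'
    exact hb
  · intro _ a ha
    have ha : a = 0 := by omega
    subst ha
    exact hw
  · intro h
    omega

theorem st_final {w w' : List S} (hw : w ≠ []) (hw' : w' ≠ [])
    (e : st A D β w (w.length - 1) 0 0 = st A D β w' (w'.length - 1) 0 0) :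
    w ∈ A.language ↔ w' ∈ A.language := by
  have hl : 0 < w.length := List.length_pos_iff.2 hw
  have hl' : 0 < w'.length := List.length_pos_iff.2 hw'
  have hmin := st_min e
  rcases Nat.lt_or_ge (w.length - 1) D with h0 | h0
  · have hlen : w.length = w'.length := by omega
    have : w = w' := by
      apply List.ext_getElem?
      intro a
      rcases Nat.lt_or_ge a w.length with ha | ha
      · have := st_letters e h0 a (by omega)
        simpa using this
      · rw [List.getElem?_eq_none ha, List.getElem?_eq_none (by omega)]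
    rw [this]
  · have key : ∀ k, k ≤ D → ∀ i j, i + j = D - k →
        A.out w (w.length - 1 - D + k) i j = A.out w' (w'.length - 1 - D + k) i j := by
      intro k
      induction k with
      | zero =>
        intro _ i j hij
        have := st_outs e h0 i (by omega)
        rw [zero_add, zero_add, show D - i = j by omega] at this
        exact this
      | succ k ih =>
        intro hk i j hij
        rw [← add_assoc, ← add_assoc]
        simp only [RTTA.out]
        rw [ih (by omega) i (j + 1) (by omega), ih (by omega) (i + 1) j (by omega)]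
    have h1 := key D le_rfl 0 0 (by omega)
    rw [Nat.sub_add_cancel h0, Nat.sub_add_cancel (by omega)] at h1
    unfold RTTA.language
    simp only [Set.mem_ofPred_eq]
    rw [h1]
    exact ⟨fun h => ⟨hw', h.2⟩, fun h => ⟨hw, h.2⟩⟩

/-- The two transition functions. -/
noncomputable def G (A : RTTA S) (D : ℕ) (β : ℕ → ℕ → Prop) (b : Prop)
    (x y : Option (S ⊕ State A D)) : S ⊕ State A D :=
  if h0 : ∃ t : List S × ℕ × ℕ, (β t.2.1 t.2.2 ↔ b) ∧ x = none ∧
      y = (t.1[t.2.1]?).map Sum.inl then
    Sum.inr (st A D β h0.choose.1 0 h0.choose.2.1 h0.choose.2.2)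
  else if h1 : ∃ t : List S × ℕ × ℕ × ℕ, (β t.2.2.1 t.2.2.2 ↔ b) ∧
      x = some (Sum.inr (st A D β t.1 t.2.1 t.2.2.1 (t.2.2.2 + 1))) ∧
      y = some (Sum.inr (st A D β t.1 t.2.1 (t.2.2.1 + 1) t.2.2.2)) then
    Sum.inr (st A D β h1.choose.1 (h1.choose.2.1 + 1) h1.choose.2.2.1 h1.choose.2.2.2)
  else Sum.inr (st A D β [] 0 0 0)

theorem G_base (hD : 0 < D) (w : List S) (i j : ℕ) :
    G A D β (β i j) none ((w[i]?).map Sum.inl) = Sum.inr (st A D β w 0 i j) := by
  have h0 : ∃ t : List S × ℕ × ℕ, (β t.2.1 t.2.2 ↔ β i j) ∧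
      (none : Option (S ⊕ State A D)) = none ∧
      ((w[i]?).map Sum.inl : Option (S ⊕ State A D)) = (t.1[t.2.1]?).map Sum.inl :=
    ⟨(w, i, j), Iff.rfl, rfl, rfl⟩
  unfold G
  rw [dif_pos h0]
  obtain ⟨c1, _, c3⟩ := h0.choose_spec
  congr 1
  apply st_base hD c1
  exact (Option.map_injective Sum.inl_injective c3).symm

include hdet in
theorem G_step (w : List S) (h i j : ℕ) :
    G A D β (β i j) (some (Sum.inr (st A D β w h i (j + 1))))
      (some (Sum.inr (st A D β w h (i + 1) j))) = Sum.inr (st A D β w (h + 1) i j) := by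
  have h1 : ∃ t : List S × ℕ × ℕ × ℕ, (β t.2.2.1 t.2.2.2 ↔ β i j) ∧
      (some (Sum.inr (st A D β w h i (j + 1))) : Option (S ⊕ State A D)) =
        some (Sum.inr (st A D β t.1 t.2.1 t.2.2.1 (t.2.2.2 + 1))) ∧
      (some (Sum.inr (st A D β w h (i + 1) j)) : Option (S ⊕ State A D)) =
        some (Sum.inr (st A D β t.1 t.2.1 (t.2.2.1 + 1) t.2.2.2)) :=
    ⟨(w, h, i, j), Iff.rfl, rfl, rfl⟩
  unfold G
  rw [dif_neg (by rintro ⟨t, _, h2, _⟩; simp at h2), dif_pos h1]
  obtain ⟨c1, c2, c3⟩ := h1.choose_spec
  congr 1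
  apply st_step hdet c1
  · exact (Sum.inr_injective (Option.some.inj c2)).symm
  · exact (Sum.inr_injective (Option.some.inj c3)).symm

end sim

/-- Every modular real-time trellis automaton is equivalent to one with two types. -/
theorem two_types {S : Type} (A : RTTA S) (hA : Modular A.T) :
    ∃ B : RTTA S, Modular B.T ∧ B.language = A.language ∧ B.numTypes ≤ 2 := by
  have := A.finΔ
  have := A.finΓ
  have : Finite S := Finite.of_injective _ A.inp.injective
  obtain ⟨p, q, M, hp, hq, hT⟩ := hA.rule
  obtain ⟨w, hw, ⟨e⟩⟩ := exists_code A.T hp hq hT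
  have : NeZero w := ⟨by omega⟩
  let D := 4 * w
  let β := bit e
  have hdet : ∀ i j i' j', (∀ a b, a + b ≤ D → (β (i + a) (j + b) ↔ β (i' + a) (j' + b))) →
      ∀ a b, a + b ≤ D → A.T (i + a) (j + b) = A.T (i' + a) (j' + b) :=
    fun i j i' j' h a b hab => bit_det hw e h a b hab
  have hD : 0 < D := by omega
  let bt : ZMod w × ZMod w × (Fin (10 * w + 1) → Fin (10 * w + 1) → Option A.Δ) → Prop :=
    fun c => ∃ i j, lab A.T w i j = c ∧ β i j
  have hbt : ∀ i j, bt (lab A.T w i j) ↔ β i j := by
    intro i j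
    constructor
    · rintro ⟨i', j', h1, h2⟩
      exact (bit_congr e h1).1 h2
    · intro h
      exact ⟨i, j, rfl, h⟩
  let B : RTTA S :=
    { Δ := ZMod w × ZMod w × (Fin (10 * w + 1) → Fin (10 * w + 1) → Option A.Δ)
      Γ := S ⊕ State A D
      finΔ := inferInstance
      finΓ := inferInstance
      inp := ⟨Sum.inl, Sum.inl_injective⟩
      T := lab A.T w
      g := fun c => G A D β (bt c)
      acc := {x | ∃ v : List S, v ≠ [] ∧ v ∈ A.language ∧
        x = Sum.inr (st A D β v (v.length - 1) 0 0)} }
  have hout : ∀ (v : List S) (h i j : ℕ), B.out v h i j = Sum.inr (st A D β v h i j) := by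
    intro v h
    induction h with
    | zero =>
      intro i j
      change G A D β (bt (lab A.T w i j)) none ((v[i]?).map Sum.inl) = _
      rw [propext (hbt i j)]
      exact G_base hD v i j
    | succ h ih =>
      intro i j
      change G A D β (bt (lab A.T w i j)) (some (B.out v h i (j + 1)))
        (some (B.out v h (i + 1) j)) = _
      rw [propext (hbt i j), ih, ih]
      exact G_step hdet v h i j
  refine ⟨B, ?_, ?_, ?_⟩
  · exact modular_of_congr (lab A.T w) p q hp hq
      (fun i j i' j' a b ha hb h => lab_congr A.T w hp hq (by omega) hT i j i' j' a b ha hb h)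
  · ext v
    constructor
    · rintro ⟨hv, u, hu, huA, h⟩
      rw [hout] at h
      exact (st_final hv hu (Sum.inr_injective h)).2 huA
    · intro hv
      refine ⟨hv.1, v, hv.1, hv, ?_⟩
      rw [hout]
  · unfold RTTA.numTypes
    have hsub : Set.range B.g ⊆ {G A D β True, G A D β False} := by
      rintro f ⟨c, rfl⟩
      change G A D β (bt c) ∈ _
      by_cases h : bt c
      · left
        rw [eq_true h]
      · right
        rw [eq_false h]
        rfl
    refine (Set.ncard_le_ncard hsub (Set.toFinite _)).trans ?_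
    refine (Set.ncard_insert_le _ _).trans ?_
    rw [Set.ncard_singleton]

end Pool.Agent.R824.TwoTypes
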